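import Pool.Agent.Q248.RL.Final

set_option autoImplicit false

open Pool.Agent.Y813.Refl

namespace Pool.Agent.Results.MP_f1d0b6_nt.ReflectiveGenus

/-- **Question Q1 of MP_f1d0b6_nt, answered in the affirmative.** Let `L` be an even positive
definite lattice of rank 20 with Gram matrix `G` and let `M = 2U + L(-1)`, of signature (2,22), with
Gram matrix `gramM G`. Suppose that `M` is reflective: on the affine cone over a component of the
domain (the connected component of the quadric containing an arbitrary point `Z₀`) there is a
nonconstant holomorphic modular form for the discriminant kernel of `M`, of some weight and with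
some character of finite order, all of whose zeros lie on hyperplanes orthogonal to reflective
vectors. Then `L` lies in the genus of `2E_8 + D_4`: it is isometric to this root lattice over the
real numbers and over the `p`-adic integers for every prime `p`. -/
theorem result (G : Matrix (Fin 20) (Fin 20) ℤ) (hsymm : G.IsSymm)
    (heven : ∀ i, Even (G i i))
    (hpos : ∀ x : Fin 20 → ℝ, x ≠ 0 → 0 < form G x x)
    (Z₀ : Fin 4 ⊕ Fin 20 → ℂ) (hZ₀ : Z₀ ∈ quadric (gramM G))
    (hR : IsReflectiveLattice (gramM G)
      (connectedComponentIn (quadric (gramM G)) Z₀)) :
    SameGenus G gramEED :=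
  Pool.Agent.Q248.RL.main G hsymm heven hpos Z₀ hZ₀ hR

end Pool.Agent.Results.MP_f1d0b6_nt.ReflectiveGenus
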